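import Mathlib

namespace MP5e3363

open Finset

/-- number of labellings of `H` by `Fin m` invariant under `al`, invariant under `ρ` on `S`, and
equal to `g` off `S`. -/
def cnt {H : Type*} [Fintype H] [DecidableEq H] (al ρ : H → H) (S : Finset H) (m : ℕ)
    (g : H → Fin m) : ℕ :=
  (univ.filter (fun l : H → Fin m => (∀ x, l (al x) = l x) ∧ (∀ x ∈ S, l (ρ x) = l x) ∧
    ∀ x, x ∉ S → l x = g x)).card

/-- The outer pairing. -/
theorem outer {H : Type*} [Fintype H] [DecidableEq H] (al ρ : H → H)
    (hal : ∀ x, al (al x) = x) (hal' : ∀ x, al x ≠ x) (t : H → Bool) (o : Bool)
    (htal : o = true → ∀ x, t (al x) = !(t x)) :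
    ∀ (N : ℕ) (S : Finset H), S.card = N → (∀ x ∈ S, ρ x ∈ S ∧ ρ (ρ x) = x ∧ ρ x ≠ x) →
    (o = true → ∀ x ∈ S, t (ρ x) = !(t x)) →
    ∃ (π : H → H) (r : ℕ), (∀ x, x ∉ S → π x ∉ S ∧ π (π x) = x ∧ π x ≠ x) ∧
      (o = true → ∀ x, x ∉ S → t (π x) = !(t x)) ∧
      ∀ (m : ℕ) (g : H → Fin m), cnt al ρ S m g =
        if (∀ x, x ∉ S → g (π x) = g x) then m ^ r else 0 := by
  intro N
  induction N using Nat.strong_induction_on with
  | _ N ih =>
    intro S hS hρ ht
    by_cases hemp : S = ∅
    · subst hemp
      refine ⟨al, 0, fun x _ => ⟨by simp, hal x, hal' x⟩, fun h x _ => htal h x, ?_⟩
      intro m g
      unfold cnt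
      by_cases hg : ∀ x, g (al x) = g x
      · have : (univ.filter (fun l : H → Fin m => (∀ x, l (al x) = l x) ∧
            (∀ x ∈ (∅ : Finset H), l (ρ x) = l x) ∧
            ∀ x, x ∉ (∅ : Finset H) → l x = g x)) = {g} := by
          ext l
          simp only [mem_filter, mem_univ, true_and, mem_singleton, notMem_empty,
            not_false_eq_true, forall_true_left, IsEmpty.forall_iff, implies_true]
          constructor
          · rintro ⟨_, h⟩
            exact funext h
          · rintro rfl
            exact ⟨hg, fun _ => rfl⟩
        rw [this]
        simp [hg]
      · rw [if_neg (by simpa using hg)]
        rw [card_eq_zero, filter_eq_empty_iff]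
        intro l _ h
        apply hg
        intro x
        have h1 := h.2.2 (al x) (by simp)
        have h2 := h.2.2 x (by simp)
        rw [← h1, ← h2]
        exact h.1 x
    · obtain ⟨a, ha⟩ := Finset.nonempty_iff_ne_empty.mpr hemp
      obtain ⟨hb, hρb, hab⟩ := hρ a ha
      set b := ρ a with hbdef
      set S' := (S.erase a).erase b with hS'
      have haS' : a ∉ S' := by simp [hS']
      have hbS' : b ∉ S' := by simp [hS']
      have hmem : ∀ x, x ∈ S' ↔ x ≠ b ∧ x ≠ a ∧ x ∈ S := by
        intro x; simp [hS']
      have hnmem : ∀ x, x ∉ S → x ∉ S' := by
        intro x hx hx'
        exact hx ((hmem x).1 hx').2.2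
      have hlt : S'.card < N := by
        rw [← hS]
        apply Finset.card_lt_card
        refine ⟨fun x hx => ((hmem x).1 hx).2.2, fun h => haS' (h ha)⟩
      have hρ' : ∀ x ∈ S', ρ x ∈ S' ∧ ρ (ρ x) = x ∧ ρ x ≠ x := by
        intro x hx
        obtain ⟨h1, h2, h3⟩ := (hmem x).1 hx
        obtain ⟨h4, h5, h6⟩ := hρ x h3
        refine ⟨(hmem _).2 ⟨?_, ?_, h4⟩, h5, h6⟩
        · intro h
          apply h2
          have := congrArg ρ h
          rw [h5, hρb] at this
          exact this
        · intro h
          apply h1
          have := congrArg ρ h
          rw [h5] at this
          exact this
      have ht' : o = true → ∀ x ∈ S', t (ρ x) = !(t x) := fun h x hx =>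
        ht h x ((hmem x).1 hx).2.2
      obtain ⟨π, r, hπ, hπt, hcnt⟩ := ih S'.card hlt S' rfl hρ' ht'
      -- fiberwise decomposition
      have hfib : ∀ (m : ℕ) (g : H → Fin m), cnt al ρ S m g =
          ∑ s : Fin m, cnt al ρ S' m (Function.update (Function.update g a s) b s) := by
        intro m g
        unfold cnt
        rw [Finset.card_eq_sum_card_fiberwise (f := fun l : H → Fin m => l a)
          (t := (univ : Finset (Fin m))) (fun _ _ => by simp)]
        refine Finset.sum_congr rfl ?_
        intro s _
        congr 1
        ext l
        simp only [mem_filter, mem_univ, true_and]
        constructor
        · rintro ⟨⟨h1, h2, h3⟩, h4⟩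
          refine ⟨h1, fun x hx => h2 x ((hmem x).1 hx).2.2, ?_⟩
          intro x hx
          by_cases hxb : x = b
          · subst hxb
            rw [Function.update_self]
            rw [← h4]
            exact h2 a ha
          · rw [Function.update_of_ne hxb]
            by_cases hxa : x = a
            · subst hxa
              rw [Function.update_self, h4]
            · rw [Function.update_of_ne hxa]
              apply h3
              intro hxS
              exact hx ((hmem x).2 ⟨hxb, hxa, hxS⟩)
        · rintro ⟨h1, h2, h3⟩
          have hla : l a = s := by
            have := h3 a haS'
            rw [Function.update_of_ne (fun h => hab h.symm), Function.update_self] at this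
            exact this
          have hlb : l b = s := by
            have := h3 b hbS'
            rw [Function.update_self] at this
            exact this
          refine ⟨⟨h1, ?_, ?_⟩, hla⟩
          · intro x hx
            by_cases hxb : x = b
            · subst hxb
              rw [hρb, hla, hlb]
            · by_cases hxa : x = a
              · subst hxa
                rw [hla]
                exact hlb
              · exact h2 x ((hmem x).2 ⟨hxb, hxa, hx⟩)
          · intro x hx
            have hxb : x ≠ b := fun h => hx (h ▸ hb)
            have hxa : x ≠ a := fun h => hx (h ▸ ha)
            have := h3 x (hnmem x hx)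
            rw [Function.update_of_ne hxb, Function.update_of_ne hxa] at this
            exact this
      by_cases hc : π a = b
      · -- a loop closes
        have hπb : π b = a := by
          have := (hπ a haS').2.1
          rw [hc] at this
          exact this
        refine ⟨π, r + 1, ?_, ?_, ?_⟩
        · intro x hx
          obtain ⟨h1, h2, h3⟩ := hπ x (hnmem x hx)
          refine ⟨?_, h2, h3⟩
          intro h
          apply h1
          refine (hmem _).2 ⟨?_, ?_, h⟩
          · intro h'
            apply hx
            have := congrArg π h'
            rw [h2, hπb] at this
            rw [this]; exact ha
          · intro h'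
            apply hx
            have := congrArg π h'
            rw [h2, hc] at this
            rw [this]; exact hb
        · intro ho x hx
          exact hπt ho x (hnmem x hx)
        · intro m g
          rw [hfib]
          simp_rw [hcnt]
          have key : ∀ s : Fin m, (∀ x, x ∉ S' →
              Function.update (Function.update g a s) b s (π x) =
              Function.update (Function.update g a s) b s x) ↔
              (∀ x, x ∉ S → g (π x) = g x) := by
            intro s
            constructor
            · intro h x hx
              have hxb : x ≠ b := fun h => hx (h ▸ hb)
              have hxa : x ≠ a := fun h => hx (h ▸ ha)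
              have h2 := (hπ x (hnmem x hx)).2.1
              have hpb : π x ≠ b := by
                intro h'
                have := congrArg π h'
                rw [h2, hπb] at this
                exact hxa this
              have hpa : π x ≠ a := by
                intro h'
                have := congrArg π h'
                rw [h2, hc] at this
                exact hxb this
              have := h x (hnmem x hx)
              rw [Function.update_of_ne hpb, Function.update_of_ne hpa,
                Function.update_of_ne hxb, Function.update_of_ne hxa] at this
              exact this
            · intro h x hx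
              by_cases hxb : x = b
              · subst hxb
                rw [hπb]
                rw [Function.update_self, Function.update_of_ne (fun h => hab h.symm),
                  Function.update_self]
              · by_cases hxa : x = a
                · subst hxa
                  rw [hc]
                  rw [Function.update_self, Function.update_of_ne (fun h => hab h.symm),
                    Function.update_self]
                · have hxS : x ∉ S := fun h => hx ((hmem x).2 ⟨hxb, hxa, h⟩)
                  have h2 := (hπ x hx).2.1
                  have hpb : π x ≠ b := by
                    intro h'
                    have := congrArg π h'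
                    rw [h2, hπb] at this
                    exact hxa this
                  have hpa : π x ≠ a := by
                    intro h'
                    have := congrArg π h'
                    rw [h2, hc] at this
                    exact hxb this
                  rw [Function.update_of_ne hpb, Function.update_of_ne hpa,
                    Function.update_of_ne hxb, Function.update_of_ne hxa]
                  exact h x hxS
          simp_rw [key]
          by_cases hg : ∀ x, x ∉ S → g (π x) = g x
          · simp only [if_pos hg, sum_const, card_univ, Fintype.card_fin,
              smul_eq_mul]
            rw [pow_succ]; ring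
          · simp only [if_neg hg, sum_const_zero]
      · -- two paths are joined
        set a' := π a with ha'
        set b' := π b with hb'
        obtain ⟨ha1, ha2, ha3⟩ := hπ a haS'
        obtain ⟨hb1, hb2, hb3⟩ := hπ b hbS'
        rw [← ha'] at ha1 ha2 ha3
        rw [← hb'] at hb1 hb2 hb3
        have hab' : a' ≠ b' := by
          intro h
          have := congrArg π h
          rw [ha2, hb2] at this
          exact hab this.symm
        have hb'a : b' ≠ a := by
          intro h
          have := congrArg π h
          rw [hb2] at this
          exact hc this.symm
        have ha'S : a' ∉ S := fun h => ha1 ((hmem _).2 ⟨hc, ha3, h⟩)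
        have hb'S : b' ∉ S := fun h => hb1 ((hmem _).2 ⟨hb3, hb'a, h⟩)
        set π' : H → H := fun x => if x = a' then b' else if x = b' then a' else π x with hπ'
        have e1 : π' a' = b' := by simp [hπ']
        have e2 : π' b' = a' := by simp [hπ', hab'.symm]
        have e3 : ∀ x, x ≠ a' → x ≠ b' → π' x = π x := by
          intro x h1 h2; simp [hπ', h1, h2]
        have hgen : ∀ x, x ∉ S → x ≠ a' → x ≠ b' → π x ∉ S ∧ π (π x) = x ∧ π x ≠ x ∧
            π x ≠ a' ∧ π x ≠ b' ∧ π x ≠ a ∧ π x ≠ b := by
          intro x hx h1 h2
          have hxb : x ≠ b := fun h => hx (h ▸ hb)
          have hxa : x ≠ a := fun h => hx (h ▸ ha)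
          obtain ⟨h3, h4, h5⟩ := hπ x (hnmem x hx)
          have q1 : π x ≠ a := by
            intro h'
            have := congrArg π h'
            rw [h4] at this
            exact h1 this
          have q2 : π x ≠ b := by
            intro h'
            have := congrArg π h'
            rw [h4] at this
            exact h2 this
          refine ⟨fun h => h3 ((hmem _).2 ⟨q2, q1, h⟩), h4, h5, ?_, ?_, q1, q2⟩
          · intro h'
            have := congrArg π h'
            rw [h4, ha2] at this
            exact hxa this
          · intro h'
            have := congrArg π h'
            rw [h4, hb2] at this
            exact hxb this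
        refine ⟨π', r, ?_, ?_, ?_⟩
        · intro x hx
          by_cases h1 : x = a'
          · subst h1
            rw [e1, e2]
            exact ⟨hb'S, rfl, hab'.symm⟩
          · by_cases h2 : x = b'
            · subst h2
              rw [e2, e1]
              exact ⟨ha'S, rfl, hab'⟩
            · obtain ⟨h3, h4, h5, h6, h7, _, _⟩ := hgen x hx h1 h2
              rw [e3 x h1 h2, e3 (π x) h6 h7]
              exact ⟨h3, h4, h5⟩
        · intro ho x hx
          have ta : t a' = !(t a) := hπt ho a haS'
          have tb : t b' = !(t b) := hπt ho b hbS'
          have tab : t b = !(t a) := ht ho a ha
          by_cases h1 : x = a'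
          · subst h1
            rw [e1, ta, tb, tab]
          · by_cases h2 : x = b'
            · subst h2
              rw [e2, ta, tb, tab]
              simp
            · rw [e3 x h1 h2]
              exact hπt ho x (hnmem x hx)
        · intro m g
          rw [hfib]
          simp_rw [hcnt]
          have key : ∀ s : Fin m, (∀ x, x ∉ S' →
              Function.update (Function.update g a s) b s (π x) =
              Function.update (Function.update g a s) b s x) ↔
              (s = g a' ∧ ∀ x, x ∉ S → g (π' x) = g x) := by
            intro s
            have ua : Function.update (Function.update g a s) b s a = s := by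
              rw [Function.update_of_ne (fun h => hab h.symm), Function.update_self]
            have ub : Function.update (Function.update g a s) b s b = s := by
              rw [Function.update_self]
            have ux : ∀ x, x ≠ a → x ≠ b →
                Function.update (Function.update g a s) b s x = g x := by
              intro x h1 h2
              rw [Function.update_of_ne h2, Function.update_of_ne h1]
            have hb'b : b' ≠ b := hb3
            constructor
            · intro h
              have p1 := h a haS'
              rw [ua, ← ha', ux a' ha3 hc] at p1
              have p2 := h b hbS'
              rw [ub, ← hb', ux b' hb'a hb3] at p2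
              refine ⟨p1.symm, ?_⟩
              intro x hx
              by_cases h1 : x = a'
              · subst h1
                rw [e1, p1, p2]
              · by_cases h2 : x = b'
                · subst h2
                  rw [e2, p1, p2]
                · obtain ⟨h3, h4, h5, h6, h7, h8, h9⟩ := hgen x hx h1 h2
                  rw [e3 x h1 h2]
                  have := h x (hnmem x hx)
                  rw [ux _ h8 h9, ux x (fun h => hx (h ▸ ha)) (fun h => hx (h ▸ hb))] at this
                  exact this
            · rintro ⟨hs, h⟩ x hx
              have q := h a' ha'S
              rw [e1] at q
              by_cases hxb : x = b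
              · subst hxb
                rw [ub, ← hb', ux b' hb'a hb3, q, hs]
              · by_cases hxa : x = a
                · subst hxa
                  rw [ua, ← ha', ux a' ha3 hc, hs]
                · have hxS : x ∉ S := fun h => hx ((hmem x).2 ⟨hxb, hxa, h⟩)
                  by_cases h1 : x = a'
                  · subst h1
                    rw [ha2, ua, ux _ ha3 hc, hs]
                  · by_cases h2 : x = b'
                    · subst h2
                      rw [hb2, ub, ux _ hb'a hb3, q, hs]
                    · obtain ⟨h3, h4, h5, h6, h7, h8, h9⟩ := hgen x hxS h1 h2
                      rw [ux _ h8 h9, ux x hxa hxb]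
                      have := h x hxS
                      rw [e3 x h1 h2] at this
                      exact this
          simp_rw [key]
          by_cases hg : ∀ x, x ∉ S → g (π' x) = g x
          · simp only [and_iff_left hg, if_pos hg]
            rw [Finset.sum_ite_eq']
            simp
          · rw [if_neg hg]
            refine Finset.sum_eq_zero fun s _ => ?_
            rw [if_neg]
            exact fun h => hg h.2

end MP5e3363
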