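import Mathlib
import Pool.Agent.Work.MP_5e3363_co.Outer

namespace MP5e3363

open Finset

/-- matching tensor -/
def mt {K : Type*} [Fintype K] {m : ℕ} (ν : K → K) (g : K → Fin m) : ℤ :=
  if ∀ i, g (ν i) = g i then 1 else 0

/-- perfect matchings (as fixed point free involutions), flipping the orientation if `o`. -/
def IsM {K : Type*} (o : Bool) (t : K → Bool) (ν : K → K) : Prop :=
  (∀ i, ν (ν i) = i ∧ ν i ≠ i) ∧ (o = true → ∀ i, t (ν i) = !(t i))

instance {K : Type*} [Fintype K] [DecidableEq K] (o : Bool) (t : K → Bool) (ν : K → K) :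
    Decidable (IsM o t ν) := by
  unfold IsM; infer_instance

/-- the integer span of matching tensors -/
def Sp {K : Type*} [Fintype K] (m : ℕ) (o : Bool) (t : K → Bool) :
    Submodule ℤ ((K → Fin m) → ℤ) :=
  Submodule.span ℤ {T | ∃ ν, IsM o t ν ∧ T = mt ν}

section

variable {V : Type*} [Fintype V] [DecidableEq V] {K : V → Type*} [∀ v, Fintype (K v)]
  [∀ v, DecidableEq (K v)]

/-- the state sum -/
def Zs (α : (Σ v, K v) → (Σ v, K v)) (m : ℕ) (T : ∀ v, (K v → Fin m) → ℤ) : ℤ :=
  ∑ l ∈ univ.filter (fun l : (Σ v, K v) → Fin m => ∀ x, l (α x) = l x),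
    ∏ v, T v (fun i => l ⟨v, i⟩)

theorem Zs_update (α : (Σ v, K v) → (Σ v, K v)) (m : ℕ) (T : ∀ v, (K v → Fin m) → ℤ) (a : V)
    (x : (K a → Fin m) → ℤ) :
    Zs α m (Function.update T a x) =
      ∑ l ∈ univ.filter (fun l : (Σ v, K v) → Fin m => ∀ x, l (α x) = l x),
        x (fun i => l ⟨a, i⟩) * ∏ v ∈ univ \ {a}, T v (fun i => l ⟨v, i⟩) := by
  unfold Zs
  refine Finset.sum_congr rfl ?_
  intro l _
  have : (fun v => Function.update T a x v (fun i => l ⟨v, i⟩)) =
      Function.update (fun v => T v (fun i => l ⟨v, i⟩)) a (x (fun i => l ⟨a, i⟩)) := by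
    funext v
    by_cases h : v = a
    · subst h; simp
    · simp [Function.update_of_ne h]
  rw [this]
  rw [Finset.prod_update_of_mem (mem_univ a)]

theorem Zs_update_zero (α : (Σ v, K v) → (Σ v, K v)) (m : ℕ) (T : ∀ v, (K v → Fin m) → ℤ)
    (a : V) : Zs α m (Function.update T a 0) = 0 := by
  rw [Zs_update]
  simp

theorem Zs_update_add (α : (Σ v, K v) → (Σ v, K v)) (m : ℕ) (T : ∀ v, (K v → Fin m) → ℤ)
    (a : V) (x y : (K a → Fin m) → ℤ) : Zs α m (Function.update T a (x + y)) =
      Zs α m (Function.update T a x) + Zs α m (Function.update T a y) := by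
  rw [Zs_update, Zs_update, Zs_update, ← Finset.sum_add_distrib]
  refine Finset.sum_congr rfl ?_
  intro l _
  simp only [Pi.add_apply]
  ring

theorem Zs_update_smul (α : (Σ v, K v) → (Σ v, K v)) (m : ℕ) (T : ∀ v, (K v → Fin m) → ℤ)
    (a : V) (c : ℤ) (x : (K a → Fin m) → ℤ) : Zs α m (Function.update T a (c • x)) =
      c * Zs α m (Function.update T a x) := by
  rw [Zs_update, Zs_update, Finset.mul_sum]
  refine Finset.sum_congr rfl ?_
  intro l _
  simp only [Pi.smul_apply, smul_eq_mul]
  ring

theorem Zs_update_sub (α : (Σ v, K v) → (Σ v, K v)) (m : ℕ) (T : ∀ v, (K v → Fin m) → ℤ)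
    (a : V) (x y : (K a → Fin m) → ℤ) : Zs α m (Function.update T a (x - y)) =
      Zs α m (Function.update T a x) - Zs α m (Function.update T a y) := by
  rw [Zs_update, Zs_update, Zs_update, ← Finset.sum_sub_distrib]
  refine Finset.sum_congr rfl ?_
  intro l _
  simp only [Pi.sub_apply]
  ring

/-- scaling the local tensors -/
theorem Zs_scale (α : (Σ v, K v) → (Σ v, K v)) (m : ℕ) (T : ∀ v, (K v → Fin m) → ℤ)
    (c : V → ℤ) : Zs α m (fun v => c v • T v) = (∏ v, c v) * Zs α m T := by
  unfold Zs
  rw [Finset.mul_sum]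
  refine Finset.sum_congr rfl ?_
  intro l _
  simp only [Pi.smul_apply, smul_eq_mul]
  rw [Finset.prod_mul_distrib]

/-- all other vertices carry matchings -/
theorem base (α : (Σ v, K v) → (Σ v, K v)) (hα : ∀ x, α (α x) = x) (hα' : ∀ x, α x ≠ x)
    (t : ∀ v, K v → Bool) (o : Bool)
    (hto : o = true → ∀ x, t (α x).1 (α x).2 = !(t x.1 x.2)) (m : ℕ) (hm : 0 < m)
    (v0 : V) (Δ : (K v0 → Fin m) → ℤ) (T : ∀ v, (K v → Fin m) → ℤ)
    (hT : ∀ w, w ≠ v0 → ∃ ν, IsM o (t w) ν ∧ T w = mt ν) :
    ∃ (π : K v0 → K v0) (r : ℕ), IsM o (t v0) π ∧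
      Zs α m (Function.update T v0 Δ) = (m : ℤ) ^ r * ∑ g, Δ g * mt π g := by
  classical
  have hT' : ∀ w, ∃ ν : K w → K w, w ≠ v0 → IsM o (t w) ν ∧ T w = mt ν := by
    intro w
    by_cases h : w = v0
    · exact ⟨id, fun h' => absurd h h'⟩
    · obtain ⟨ν, hν⟩ := hT w h
      exact ⟨ν, fun _ => hν⟩
  choose ν hν using hT'
  set ρ : (Σ v, K v) → (Σ v, K v) := fun x => ⟨x.1, ν x.1 x.2⟩ with hρ
  set S : Finset (Σ v, K v) := univ.filter (fun x => x.1 ≠ v0) with hS
  have hmemS : ∀ x, x ∈ S ↔ x.1 ≠ v0 := by intro x; simp [hS]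
  have h1 : ∀ x ∈ S, ρ x ∈ S ∧ ρ (ρ x) = x ∧ ρ x ≠ x := by
    rintro ⟨w, i⟩ hx
    have hw : w ≠ v0 := (hmemS _).1 hx
    have := ((hν w hw).1).1 i
    refine ⟨(hmemS _).2 hw, ?_, ?_⟩
    · simp only [hρ]
      rw [this.1]
    · simp only [hρ]
      intro h
      apply this.2
      simpa using h
  have h2 : o = true → ∀ x ∈ S, (fun x : (Σ v, K v) => t x.1 x.2) (ρ x) =
      !((fun x : (Σ v, K v) => t x.1 x.2) x) := by
    rintro ho ⟨w, i⟩ hx
    have hw : w ≠ v0 := (hmemS _).1 hx
    exact ((hν w hw).1).2 ho i
  obtain ⟨π', r, hπ', hπt, hcnt⟩ := outer α ρ hα hα' (fun x => t x.1 x.2) o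
    (fun ho x => hto ho x) S.card S rfl h1 h2
  have h3 : ∀ i : K v0, ∃ j : K v0, π' ⟨v0, i⟩ = ⟨v0, j⟩ := by
    intro i
    have h4 : (⟨v0, i⟩ : Σ v, K v) ∉ S := by rw [hmemS]; simp
    have h5 := (hπ' _ h4).1
    rw [hmemS, not_not] at h5
    generalize π' ⟨v0, i⟩ = y at h5
    obtain ⟨w, j⟩ := y
    simp only at h5
    subst h5
    exact ⟨j, rfl⟩
  choose π hπ using h3
  have hns : ∀ i : K v0, (⟨v0, i⟩ : Σ v, K v) ∉ S := by intro i; rw [hmemS]; simp
  refine ⟨π, r, ⟨?_, ?_⟩, ?_⟩
  · intro i
    have h5 := hπ' _ (hns i)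
    constructor
    · have := h5.2.1
      rw [hπ i, hπ (π i)] at this
      simpa using this
    · intro h
      apply h5.2.2
      rw [hπ i, h]
  · intro ho i
    have := hπt ho _ (hns i)
    rw [hπ i] at this
    exact this
  · rw [Zs_update]
    -- group by the restriction to `v0`
    have hfib : ∀ g : K v0 → Fin m,
        ∑ l ∈ (univ.filter (fun l : (Σ v, K v) → Fin m => ∀ x, l (α x) = l x)).filter
            (fun l => (fun i => l ⟨v0, i⟩) = g),
          Δ (fun i => l ⟨v0, i⟩) * ∏ v ∈ univ \ {v0}, T v (fun i => l ⟨v, i⟩) =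
        (m : ℤ) ^ r * (Δ g * mt π g) := by
      intro g
      -- extension of g
      set G : (Σ v, K v) → Fin m := fun x =>
        if h : x.1 = v0 then g (h ▸ x.2) else ⟨0, hm⟩ with hG
      have hG0 : ∀ i, G ⟨v0, i⟩ = g i := by intro i; simp [hG]
      have hc := hcnt m G
      have hprod : ∀ l : (Σ v, K v) → Fin m,
          ∏ v ∈ univ \ {v0}, T v (fun i => l ⟨v, i⟩) =
            if (∀ x ∈ S, l (ρ x) = l x) then 1 else 0 := by
        intro l
        by_cases h : ∀ x ∈ S, l (ρ x) = l x
        · rw [if_pos h]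
          apply Finset.prod_eq_one
          intro v hv
          have hv' : v ≠ v0 := by simpa using hv
          rw [(hν v hv').2, mt, if_pos]
          intro i
          exact h ⟨v, i⟩ ((hmemS _).2 hv')
        · rw [if_neg h]
          push Not at h
          obtain ⟨⟨w, i⟩, hx, hne⟩ := h
          have hw : w ≠ v0 := (hmemS _).1 hx
          apply Finset.prod_eq_zero (i := w)
          · simpa using hw
          · rw [(hν w hw).2, mt, if_neg]
            intro h
            exact hne (h i)
      have e1 : ∑ l ∈ (univ.filter (fun l : (Σ v, K v) → Fin m => ∀ x, l (α x) = l x)).filter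
            (fun l => (fun i => l ⟨v0, i⟩) = g),
          Δ (fun i => l ⟨v0, i⟩) * ∏ v ∈ univ \ {v0}, T v (fun i => l ⟨v, i⟩) =
          Δ g * (cnt α ρ S m G : ℤ) := by
        unfold cnt
        rw [Finset.card_eq_sum_ones, Nat.cast_sum, Finset.mul_sum]
        rw [← Finset.sum_filter_add_sum_filter_not _ (fun l => ∀ x ∈ S, l (ρ x) = l x)]
        have z : ∑ l ∈ ((univ.filter (fun l : (Σ v, K v) → Fin m =>
            ∀ x, l (α x) = l x)).filter
            (fun l => (fun i => l ⟨v0, i⟩) = g)).filter (fun l => ¬ ∀ x ∈ S, l (ρ x) = l x),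
            Δ (fun i => l ⟨v0, i⟩) * ∏ v ∈ univ \ {v0}, T v (fun i => l ⟨v, i⟩) = 0 := by
          apply Finset.sum_eq_zero
          intro l hl
          rw [mem_filter] at hl
          rw [hprod, if_neg hl.2, mul_zero]
        rw [z, add_zero]
        apply Finset.sum_congr
        · ext l
          simp only [mem_filter, mem_univ, true_and]
          constructor
          · rintro ⟨⟨p1, p2⟩, p3⟩
            refine ⟨p1, p3, ?_⟩
            rintro ⟨w, i⟩ hx
            rw [hmemS, not_not] at hx
            simp only at hx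
            subst hx
            rw [hG0]
            exact congrFun p2 i
          · rintro ⟨p1, p3, p2⟩
            refine ⟨⟨p1, ?_⟩, p3⟩
            funext i
            rw [p2 _ (hns i), hG0]
        · intro l hl
          simp only [mem_filter, mem_univ, true_and] at hl
          rw [hprod, if_pos hl.2.1]
          have : (fun i => l ⟨v0, i⟩) = g := by
            funext i
            rw [hl.2.2 _ (hns i), hG0]
          rw [this]
          simp
      rw [e1, hc]
      unfold mt
      have hiff : (∀ x, x ∉ S → G (π' x) = G x) ↔ ∀ i, g (π i) = g i := by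
        constructor
        · intro h i
          have := h _ (hns i)
          rw [hπ i, hG0, hG0] at this
          exact this
        · rintro h ⟨w, i⟩ hx
          rw [hmemS, not_not] at hx
          simp only at hx
          subst hx
          rw [hπ i, hG0, hG0]
          exact h i
      by_cases h : ∀ i, g (π i) = g i
      · rw [if_pos (hiff.2 h), if_pos h]
        push_cast
        ring
      · rw [if_neg (fun h' => h (hiff.1 h')), if_neg h]
        simp
    rw [Finset.mul_sum]
    rw [← Finset.sum_congr rfl (fun g _ => hfib g)]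
    rw [Finset.sum_fiberwise]

theorem span_step (α : (Σ v, K v) → (Σ v, K v)) (hα : ∀ x, α (α x) = x) (hα' : ∀ x, α x ≠ x)
    (t : ∀ v, K v → Bool) (o : Bool)
    (hto : o = true → ∀ x, t (α x).1 (α x).2 = !(t x.1 x.2)) (m : ℕ) (hm : 0 < m)
    (v0 : V) (Δ : (K v0 → Fin m) → ℤ) (M : ℤ)
    (hΔ : ∀ π, IsM o (t v0) π → M ∣ ∑ g, Δ g * mt π g) (A : Finset V) :
    ∀ (T : ∀ v, (K v → Fin m) → ℤ), (∀ w, w ≠ v0 → T w ∈ Sp m o (t w)) →
      (∀ w, w ≠ v0 → w ∉ A → ∃ ν, IsM o (t w) ν ∧ T w = mt ν) →
      M ∣ Zs α m (Function.update T v0 Δ) := by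
  classical
  induction A using Finset.induction_on with
  | empty =>
    intro T _ hT
    obtain ⟨π, r, h1, h2⟩ := base α hα hα' t o hto m hm v0 Δ T (fun w hw => hT w hw (by simp))
    rw [h2]
    exact Dvd.dvd.mul_left (hΔ π h1) _
  | insert a A ha ih =>
    intro T hT1 hT2
    by_cases hav : a = v0
    · apply ih T hT1
      intro w hw hwA
      apply hT2 w hw
      rw [mem_insert]
      rintro (h | h)
      · exact hw (h.trans hav)
      · exact hwA h
    · have key : ∀ x ∈ Sp m o (t a),
          M ∣ Zs α m (Function.update (Function.update T v0 Δ) a x) := by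
        intro x hx
        unfold Sp at hx
        induction hx using Submodule.span_induction with
        | mem x h =>
          obtain ⟨ν, hν, rfl⟩ := h
          rw [Function.update_comm (Ne.symm hav)]
          apply ih
          · intro w hw
            by_cases hwa : w = a
            · subst hwa
              rw [Function.update_self]
              exact Submodule.subset_span ⟨ν, hν, rfl⟩
            · rw [Function.update_of_ne hwa]
              exact hT1 w hw
          · intro w hw hwA
            by_cases hwa : w = a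
            · subst hwa
              rw [Function.update_self]
              exact ⟨ν, hν, rfl⟩
            · rw [Function.update_of_ne hwa]
              apply hT2 w hw
              rw [mem_insert]
              rintro (h | h)
              · exact hwa h
              · exact hwA h
        | zero => rw [Zs_update_zero]; exact dvd_zero _
        | add x y _ _ hx hy => rw [Zs_update_add]; exact dvd_add hx hy
        | smul c x _ hx => rw [Zs_update_smul]; exact Dvd.dvd.mul_left hx _
      have := key (T a) (hT1 a hav)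
      rw [Function.update_comm (Ne.symm hav), Function.update_eq_self] at this
      exact this

/-- **Replacement**. -/
theorem replace_all (α : (Σ v, K v) → (Σ v, K v)) (hα : ∀ x, α (α x) = x)
    (hα' : ∀ x, α x ≠ x)
    (t : ∀ v, K v → Bool) (o : Bool)
    (hto : o = true → ∀ x, t (α x).1 (α x).2 = !(t x.1 x.2)) (m : ℕ) (hm : 0 < m)
    (M : ℤ) (T T' : ∀ v, (K v → Fin m) → ℤ) (hT : ∀ v, T v ∈ Sp m o (t v))
    (hT' : ∀ v, T' v ∈ Sp m o (t v))
    (h : ∀ v π, IsM o (t v) π → M ∣ ∑ g, (T v g - T' v g) * mt π g) :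
    M ∣ Zs α m T - Zs α m T' := by
  classical
  have key : ∀ A : Finset V, M ∣ Zs α m T - Zs α m (fun v => if v ∈ A then T' v else T v) := by
    intro A
    induction A using Finset.induction_on with
    | empty => simp
    | insert a A ha ih =>
      set U : ∀ v, (K v → Fin m) → ℤ := fun v => if v ∈ A then T' v else T v with hU
      have hUa : U a = T a := by simp [hU, ha]
      have e1 : (fun v => if v ∈ insert a A then T' v else T v) = Function.update U a (T' a) := by
        funext v
        by_cases hva : v = a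
        · subst hva
          simp
        · simp [hU, mem_insert, hva]
      have e2 : U = Function.update U a (T a) := by
        rw [← hUa, Function.update_eq_self]
      rw [e1]
      have e3 : Zs α m U - Zs α m (Function.update U a (T' a)) =
          Zs α m (Function.update U a (T a - T' a)) := by
        rw [Zs_update_sub, ← e2]
      have e4 : M ∣ Zs α m (Function.update U a (T a - T' a)) := by
        apply span_step α hα hα' t o hto m hm a (T a - T' a) M ?_ univ U
        · intro w _
          simp only [hU]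
          split_ifs
          · exact hT' w
          · exact hT w
        · intro w _ hw
          exact absurd (mem_univ w) hw
        · intro π hπ
          exact h a π hπ
      have e5 : Zs α m T - Zs α m (Function.update U a (T' a)) =
          (Zs α m T - Zs α m U) + (Zs α m U - Zs α m (Function.update U a (T' a))) := by ring
      rw [e5, e3]
      exact dvd_add ih e4
  have := key univ
  simpa using this

end

end MP5e3363
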