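import Mathlib
import Pool.Agent.Work.MP_5e3363_co.StateSum

namespace MP5e3363

open Finset

/-- the `i`-th binary digit comparison -/
def okb {n : ℕ} (ν π : Fin n → Fin n) (b : ℕ) : Prop :=
  ∀ i : Fin n, b / 2 ^ (π i : ℕ) % 2 = b / 2 ^ (i : ℕ) % 2 ∧
    b / 2 ^ (ν i : ℕ) % 2 = b / 2 ^ (i : ℕ) % 2

instance {n : ℕ} (ν π : Fin n → Fin n) : DecidablePred (okb ν π) := by
  unfold okb; infer_instance

/-- number of loops formed by two matchings -/
def rr {n : ℕ} (ν π : Fin n → Fin n) : ℕ :=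
  Nat.log 2 (Nat.count (okb ν π) (2 ^ n))

theorem count_okb {n : ℕ} (ν π : Fin n → Fin n) :
    (univ.filter (fun g : Fin n → Fin 2 =>
    (∀ i, g (π i) = g i) ∧ ∀ i, g (ν i) = g i)).card = Nat.count (okb ν π) (2 ^ n) := by
  rw [Nat.count_eq_card_filter_range]
  refine Finset.card_bij (fun g _ => ((finFunctionFinEquiv g : Fin (2 ^ n)) : ℕ)) ?_ ?_ ?_
  · intro g hg
    simp only [mem_filter, mem_univ, true_and] at hg
    simp only [mem_filter, mem_range]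
    refine ⟨(finFunctionFinEquiv g).2, ?_⟩
    have key : ∀ i : Fin n, ((finFunctionFinEquiv g : Fin (2 ^ n)) : ℕ) / 2 ^ (i : ℕ) % 2 =
        (g i : ℕ) := by
      intro i
      have := congrFun (finFunctionFinEquiv.symm_apply_apply g) i
      rw [← this]
      rw [finFunctionFinEquiv_symm_apply_val]
    intro i
    rw [key, key, key, hg.1 i, hg.2 i]
    exact ⟨rfl, rfl⟩
  · intro g _ g' _ h
    exact finFunctionFinEquiv.injective (Fin.ext h)
  · intro b hb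
    simp only [mem_filter, mem_range] at hb
    refine ⟨finFunctionFinEquiv.symm ⟨b, hb.1⟩, ?_, ?_⟩
    · simp only [mem_filter, mem_univ, true_and]
      constructor
      · intro i
        apply Fin.ext
        rw [finFunctionFinEquiv_symm_apply_val, finFunctionFinEquiv_symm_apply_val]
        exact (hb.2 i).1
      · intro i
        apply Fin.ext
        rw [finFunctionFinEquiv_symm_apply_val, finFunctionFinEquiv_symm_apply_val]
        exact (hb.2 i).2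
    · rw [finFunctionFinEquiv.apply_symm_apply]

theorem sum_mt_mt {n : ℕ} (t : Fin n → Bool) (ν π : Fin n → Fin n) (hν : IsM false t ν)
    (hπ : IsM false t π) (m : ℕ) (hm : 0 < m) :
    ∑ g : Fin n → Fin m, mt ν g * mt π g = (m : ℤ) ^ (rr ν π) := by
  obtain ⟨_, r, _, _, h⟩ := outer π ν (fun x => (hπ.1 x).1) (fun x => (hπ.1 x).2) t false
    (by simp) (univ : Finset (Fin n)).card univ rfl
    (fun x _ => ⟨mem_univ _, hν.1 x⟩) (by simp)
  have h' : ∀ m : ℕ, 0 < m → ((univ.filter (fun g : Fin n → Fin m =>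
      (∀ i, g (π i) = g i) ∧ ∀ i, g (ν i) = g i)).card) = m ^ r := by
    intro m hm
    have := h m (fun _ => ⟨0, hm⟩)
    simpa [cnt] using this
  have hr : rr ν π = r := by
    unfold rr
    rw [← count_okb, h' 2 (by norm_num)]
    exact Nat.log_pow (by norm_num) r
  rw [hr]
  have := h' m hm
  rw [← Nat.cast_pow, ← this, Finset.card_eq_sum_ones, Nat.cast_sum, Finset.sum_filter]
  refine Finset.sum_congr rfl ?_
  intro g _
  unfold mt
  by_cases h1 : ∀ i, g (ν i) = g i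
  · by_cases h2 : ∀ i, g (π i) = g i
    · simp [h1, h2]
    · rw [if_pos h1, if_neg h2, if_neg (fun h => h2 h.1)]
      simp
  · rw [if_neg h1, zero_mul, if_neg (fun h : (_ ∧ _) => h1 h.2)]

/-- evaluation of a formal combination of matchings -/
def ev {K : Type*} [Fintype K] {m : ℕ} (D : List (ℤ × (K → K))) (g : K → Fin m) : ℤ :=
  (D.map (fun p => p.1 * mt p.2 g)).sum

/-- the value of the closure of a combination at loop value `-2` -/
def pol {n : ℕ} (D : List (ℤ × (Fin n → Fin n))) (π : Fin n → Fin n) : ℤ :=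
  (D.map (fun p => p.1 * (-2) ^ (rr p.2 π))).sum

theorem ev_mem {K : Type*} [Fintype K] (m : ℕ) (o : Bool) (t : K → Bool)
    (D : List (ℤ × (K → K))) (hD : ∀ p ∈ D, IsM o t p.2) :
    (ev D : (K → Fin m) → ℤ) ∈ Sp m o t := by
  induction D with
  | nil =>
    have : (ev [] : (K → Fin m) → ℤ) = 0 := by
      funext g; simp [ev]
    rw [this]
    exact Submodule.zero_mem _
  | cons p D ih =>
    have : (ev (p :: D) : (K → Fin m) → ℤ) = p.1 • (mt p.2) + ev D := by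
      funext g; simp [ev]
    rw [this]
    apply Submodule.add_mem
    · apply Submodule.smul_mem
      exact Submodule.subset_span ⟨p.2, hD p (by simp), rfl⟩
    · exact ih (fun q hq => hD q (by simp [hq]))

theorem sum_ev {n : ℕ} (t : Fin n → Bool) (π : Fin n → Fin n)
    (hπ : IsM false t π) (m : ℕ) (hm : 0 < m) (M : ℤ) (hM : M ∣ (m : ℤ) + 2)
    (D : List (ℤ × (Fin n → Fin n))) (hD : ∀ p ∈ D, IsM false t p.2) :
    M ∣ (∑ g : Fin n → Fin m, ev D g * mt π g) - pol D π := by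
  induction D with
  | nil => simp [ev, pol]
  | cons p D ih =>
    have e1 : ∑ g : Fin n → Fin m, ev (p :: D) g * mt π g =
        p.1 * (m : ℤ) ^ (rr p.2 π) + ∑ g : Fin n → Fin m, ev D g * mt π g := by
      rw [← sum_mt_mt t p.2 π (hD p (by simp)) hπ m hm, Finset.mul_sum, ← Finset.sum_add_distrib]
      refine Finset.sum_congr rfl ?_
      intro g _
      simp only [ev, List.map_cons, List.sum_cons]
      ring
    have e2 : pol (p :: D) π = p.1 * (-2) ^ (rr p.2 π) + pol D π := by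
      simp [pol]
    have e3 : M ∣ (m : ℤ) ^ (rr p.2 π) - (-2) ^ (rr p.2 π) := by
      refine dvd_trans ?_ (sub_dvd_pow_sub_pow (m : ℤ) (-2) (rr p.2 π))
      simpa using hM
    have e4 := ih (fun q hq => hD q (by simp [hq]))
    rw [e1, e2]
    have e5 : p.1 * (m : ℤ) ^ (rr p.2 π) + ∑ g : Fin n → Fin m, ev D g * mt π g -
        (p.1 * (-2) ^ (rr p.2 π) + pol D π) =
        p.1 * ((m : ℤ) ^ (rr p.2 π) - (-2) ^ (rr p.2 π)) +
        ((∑ g : Fin n → Fin m, ev D g * mt π g) - pol D π) := by ring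
    rw [e5]
    exact dvd_add (Dvd.dvd.mul_left e3 _) e4

theorem local_check {n : ℕ} (t : Fin n → Bool) (π : Fin n → Fin n)
    (hπ : IsM false t π) (m : ℕ) (hm : 0 < m) (M : ℤ) (hM : M ∣ (m : ℤ) + 2)
    (D D' : List (ℤ × (Fin n → Fin n))) (hD : ∀ p ∈ D, IsM false t p.2)
    (hD' : ∀ p ∈ D', IsM false t p.2) (h : M ∣ pol D π - pol D' π) :
    M ∣ ∑ g : Fin n → Fin m, (ev D g - ev D' g) * mt π g := by
  have h1 := sum_ev t π hπ m hm M hM D hD
  have h2 := sum_ev t π hπ m hm M hM D' hD'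
  have e : ∑ g : Fin n → Fin m, (ev D g - ev D' g) * mt π g =
      ((∑ g : Fin n → Fin m, ev D g * mt π g) - pol D π) -
      ((∑ g : Fin n → Fin m, ev D' g * mt π g) - pol D' π) + (pol D π - pol D' π) := by
    have : ∑ g : Fin n → Fin m, (ev D g - ev D' g) * mt π g =
      (∑ g : Fin n → Fin m, ev D g * mt π g) - ∑ g : Fin n → Fin m, ev D' g * mt π g := by
      rw [← Finset.sum_sub_distrib]
      refine Finset.sum_congr rfl ?_
      intro g _
      ring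
    rw [this]; ring
  rw [e]
  exact dvd_add (dvd_sub h1 h2) h

/-! ### the local tensors -/

/-- the signed chord -/
def Dch : List (ℤ × (Fin 4 → Fin 4)) := [(1, ![2,3,0,1]), (-1, ![3,2,1,0])]
/-- the chord after the first replacement -/
def Dch1 : List (ℤ × (Fin 4 → Fin 4)) := [(-1, ![1,0,3,2]), (-2, ![3,2,1,0])]
/-- the chord after the second replacement -/
def Dch2 : List (ℤ × (Fin 4 → Fin 4)) := [(-1, ![1,0,3,2])]

/-- the signed claw -/
def Dcl : List (ℤ × (Fin 6 → Fin 6)) :=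
  [(1, ![5,2,1,4,3,0]), (-1, ![2,5,0,4,3,1]), (-1, ![5,3,4,1,2,0]), (-1, ![4,2,1,5,0,3]),
   (1, ![3,5,4,0,2,1]), (1, ![2,4,0,5,1,3]), (1, ![4,3,5,1,0,2]), (-1, ![3,4,5,0,1,2])]
/-- the claw after the first replacement, divided by four -/
def Dcl1 : List (ℤ × (Fin 6 → Fin 6)) := [(1, ![5,2,1,4,3,0]), (-1, ![3,4,5,0,1,2])]
/-- the claw after the first replacement -/
def Dcl1' : List (ℤ × (Fin 6 → Fin 6)) := [(4, ![5,2,1,4,3,0]), (-4, ![3,4,5,0,1,2])]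
/-- the claw after the second replacement -/
def Dcl2 : List (ℤ × (Fin 6 → Fin 6)) := [(1, ![1,0,3,2,5,4])]

def t4 : Fin 4 → Bool := ![false, true, false, true]
def t6 : Fin 6 → Bool := ![false, true, false, true, false, true]

/-- the list of matchings on four points -/
def L4 : List (Fin 4 → Fin 4) := [![1,0,3,2], ![2,3,0,1], ![3,2,1,0]]

/-- the list of matchings on six points -/
def L6 : List (Fin 6 → Fin 6) :=
  [![1,0,3,2,5,4], ![1,0,4,5,2,3], ![1,0,5,4,3,2],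
   ![2,3,0,1,5,4], ![2,4,0,5,1,3], ![2,5,0,4,3,1],
   ![3,2,1,0,5,4], ![3,4,5,0,1,2], ![3,5,4,0,2,1],
   ![4,2,1,5,0,3], ![4,3,5,1,0,2], ![4,5,3,2,0,1],
   ![5,2,1,4,3,0], ![5,3,4,1,2,0], ![5,4,3,2,1,0]]

theorem L4_complete' : ∀ a : Fin 4, a ≠ 0 → ∀ b : Fin 4, (b ≠ 1 ∧ (a = 1 ↔ b = 0)) →
    ∀ c : Fin 4, (c ≠ 2 ∧ (a = 2 ↔ c = 0) ∧ (b = 2 ↔ c = 1)) →
    ∀ d : Fin 4, (d ≠ 3 ∧ (a = 3 ↔ d = 0) ∧ (b = 3 ↔ d = 1) ∧ (c = 3 ↔ d = 2)) →
    ![a, b, c, d] ∈ L4 := by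
  decide +kernel

set_option synthInstance.maxSize 2000 in
theorem L6_complete' : ∀ a : Fin 6, a ≠ 0 → ∀ b : Fin 6, (b ≠ 1 ∧ (a = 1 ↔ b = 0)) →
    ∀ c : Fin 6, (c ≠ 2 ∧ (a = 2 ↔ c = 0) ∧ (b = 2 ↔ c = 1)) →
    ∀ d : Fin 6, (d ≠ 3 ∧ (a = 3 ↔ d = 0) ∧ (b = 3 ↔ d = 1) ∧ (c = 3 ↔ d = 2)) →
    ∀ e : Fin 6, (e ≠ 4 ∧ (a = 4 ↔ e = 0) ∧ (b = 4 ↔ e = 1) ∧ (c = 4 ↔ e = 2) ∧
      (d = 4 ↔ e = 3)) →
    ∀ f : Fin 6, (f ≠ 5 ∧ (a = 5 ↔ f = 0) ∧ (b = 5 ↔ f = 1) ∧ (c = 5 ↔ f = 2) ∧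
      (d = 5 ↔ f = 3) ∧ (e = 5 ↔ f = 4)) →
    ![a, b, c, d, e, f] ∈ L6 := by
  decide +kernel

theorem L4_complete (t : Fin 4 → Bool) (π : Fin 4 → Fin 4) (h : IsM false t π) : π ∈ L4 := by
  have hiff : ∀ i j, π i = j ↔ π j = i := by
    intro i j
    constructor
    · rintro rfl; exact (h.1 i).1
    · rintro rfl; exact (h.1 j).1
  have hne : ∀ i, π i ≠ i := fun i => (h.1 i).2
  have e : π = ![π 0, π 1, π 2, π 3] := by
    funext i; fin_cases i <;> rfl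
  rw [e]
  exact L4_complete' _ (hne 0) _ ⟨hne 1, hiff 0 1⟩ _ ⟨hne 2, hiff 0 2, hiff 1 2⟩ _
    ⟨hne 3, hiff 0 3, hiff 1 3, hiff 2 3⟩

theorem L6_complete (t : Fin 6 → Bool) (π : Fin 6 → Fin 6) (h : IsM false t π) : π ∈ L6 := by
  have hiff : ∀ i j, π i = j ↔ π j = i := by
    intro i j
    constructor
    · rintro rfl; exact (h.1 i).1
    · rintro rfl; exact (h.1 j).1
  have hne : ∀ i, π i ≠ i := fun i => (h.1 i).2
  have e : π = ![π 0, π 1, π 2, π 3, π 4, π 5] := by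
    funext i; fin_cases i <;> rfl
  rw [e]
  exact L6_complete' _ (hne 0) _ ⟨hne 1, hiff 0 1⟩ _ ⟨hne 2, hiff 0 2, hiff 1 2⟩ _
    ⟨hne 3, hiff 0 3, hiff 1 3, hiff 2 3⟩ _ ⟨hne 4, hiff 0 4, hiff 1 4, hiff 2 4, hiff 3 4⟩ _
    ⟨hne 5, hiff 0 5, hiff 1 5, hiff 2 5, hiff 3 5, hiff 4 5⟩

/-! ### the finite verifications -/

theorem ch_first : ∀ π ∈ L4, pol Dch π = pol Dch1 π := by
  decide +kernel

theorem ch_second : ∀ π ∈ L4, IsM true t4 π → (4 : ℤ) ∣ pol Dch1 π - pol Dch2 π := by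
  decide +kernel

theorem cl_first : ∀ π ∈ L6, pol Dcl π = pol Dcl1' π := by
  unfold L6
  simp only [List.forall_mem_cons]
  refine ⟨?_, ?_, ?_, ?_, ?_, ?_, ?_, ?_, ?_, ?_, ?_, ?_, ?_, ?_, ?_, fun π hπ => ?_⟩
  iterate 15 decide +kernel
  exact absurd hπ (List.not_mem_nil)

theorem cl_second : ∀ π ∈ L6, IsM true t6 π → (4 : ℤ) ∣ pol Dcl1 π - pol Dcl2 π := by
  unfold L6
  simp only [List.forall_mem_cons]
  refine ⟨?_, ?_, ?_, ?_, ?_, ?_, ?_, ?_, ?_, ?_, ?_, ?_, ?_, ?_, ?_, fun π hπ => ?_⟩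
  iterate 15 decide +kernel
  exact absurd hπ (List.not_mem_nil)

theorem ismat_ch : (∀ p ∈ Dch, IsM false t4 p.2) ∧ (∀ p ∈ Dch1, IsM true t4 p.2) ∧
    (∀ p ∈ Dch2, IsM true t4 p.2) := by
  decide +kernel

theorem ismat_cl : (∀ p ∈ Dcl, IsM false t6 p.2) ∧ (∀ p ∈ Dcl1, IsM true t6 p.2) ∧
    (∀ p ∈ Dcl1', IsM true t6 p.2) ∧ (∀ p ∈ Dcl2, IsM true t6 p.2) := by
  decide +kernel

end MP5e3363
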