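import Mathlib
import Pool.Agent.Work.MP_5e3363_co.Local

namespace MP5e3363

open Finset

theorem ch_nz {m : ℕ} (g : Fin 4 → Fin m) (h : ev Dch g ≠ 0) :
    g 0 ≠ g 1 ∧ s(g 0, g 1) = s(g 2, g 3) := by
  have h1 : (∀ i, g ((![2,3,0,1] : Fin 4 → Fin 4) i) = g i) ↔ (g 0 = g 2 ∧ g 1 = g 3) := by
    constructor
    · intro h
      exact ⟨h 2, h 3⟩
    · rintro ⟨h1, h2⟩ i
      fin_cases i
      · exact h1.symm
      · exact h2.symm
      · exact h1
      · exact h2
  have h2 : (∀ i, g ((![3,2,1,0] : Fin 4 → Fin 4) i) = g i) ↔ (g 0 = g 3 ∧ g 1 = g 2) := by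
    constructor
    · intro h
      exact ⟨h 3, h 2⟩
    · rintro ⟨h1, h2⟩ i
      fin_cases i
      · exact h1.symm
      · exact h2.symm
      · exact h2
      · exact h1
  have e : ev Dch g = (if (g 0 = g 2 ∧ g 1 = g 3) then 1 else 0) -
      (if (g 0 = g 3 ∧ g 1 = g 2) then 1 else 0) := by
    simp only [ev, Dch, List.map_cons, List.map_nil, List.sum_cons, List.sum_nil, mt, h1, h2]
    ring
  rw [e] at h
  by_cases p1 : (g 0 = g 2 ∧ g 1 = g 3)
  · by_cases p2 : (g 0 = g 3 ∧ g 1 = g 2)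
    · rw [if_pos p1, if_pos p2] at h
      simp at h
    · refine ⟨?_, ?_⟩
      · intro q
        exact p2 ⟨q.trans p1.2, q.symm.trans p1.1⟩
      · rw [p1.1, p1.2]
  · by_cases p2 : (g 0 = g 3 ∧ g 1 = g 2)
    · refine ⟨?_, ?_⟩
      · intro q
        exact p1 ⟨q.trans p2.2, q.symm.trans p2.1⟩
      · rw [p2.1, p2.2, Sym2.eq_swap]
    · simp [p1, p2] at h

/-- validity of the hexagon matching -/
def hx {m : ℕ} (a a' c c' e e' : Fin m) : Prop := a' = c ∧ c' = e ∧ e' = a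

instance {m : ℕ} (a a' c c' e e' : Fin m) : Decidable (hx a a' c c' e e') := by
  unfold hx; infer_instance

theorem ev_Dcl {m : ℕ} (g : Fin 6 → Fin m) : ev Dcl g =
    (if hx (g 0) (g 1) (g 2) (g 3) (g 4) (g 5) then 1 else 0)
    - (if hx (g 1) (g 0) (g 2) (g 3) (g 4) (g 5) then 1 else 0)
    - (if hx (g 0) (g 1) (g 3) (g 2) (g 4) (g 5) then 1 else 0)
    - (if hx (g 0) (g 1) (g 2) (g 3) (g 5) (g 4) then 1 else 0)
    + (if hx (g 1) (g 0) (g 3) (g 2) (g 4) (g 5) then 1 else 0)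
    + (if hx (g 1) (g 0) (g 2) (g 3) (g 5) (g 4) then 1 else 0)
    + (if hx (g 0) (g 1) (g 3) (g 2) (g 5) (g 4) then 1 else 0)
    - (if hx (g 1) (g 0) (g 3) (g 2) (g 5) (g 4) then 1 else 0) := by
  have key : ∀ (v : Fin 6 → Fin 6) (a a' c c' e e' : Fin 6),
      (∀ P : Fin 6 → Prop, (∀ i, P i) ↔ (P a ∧ P a' ∧ P c ∧ P c' ∧ P e ∧ P e')) →
      v a' = c → v c = a' → v c' = e → v e = c' → v e' = a → v a = e' →
      ((∀ i, g (v i) = g i) ↔ hx (g a) (g a') (g c) (g c') (g e) (g e')) := by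
    intro v a a' c c' e e' hall q1 q2 q3 q4 q5 q6
    rw [hall (fun i => g (v i) = g i)]
    rw [q1, q2, q3, q4, q5, q6]
    unfold hx
    constructor
    · rintro ⟨h1, h2, h3, h4, h5, h6⟩
      exact ⟨h2.symm, h4.symm, h6.symm⟩
    · rintro ⟨h1, h2, h3⟩
      exact ⟨h3, h1.symm, h1, h2.symm, h2, h3.symm⟩
  have all : ∀ P : Fin 6 → Prop, (∀ i, P i) ↔ (P 0 ∧ P 1 ∧ P 2 ∧ P 3 ∧ P 4 ∧ P 5) := by
    intro P
    constructor
    · intro h; exact ⟨h _, h _, h _, h _, h _, h _⟩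
    · rintro ⟨h0, h1, h2, h3, h4, h5⟩ i
      fin_cases i <;> assumption
  have k1 := key ![5,2,1,4,3,0] 0 1 2 3 4 5 (fun P => by rw [all])
    rfl rfl rfl rfl rfl rfl
  have k2 := key ![2,5,0,4,3,1] 1 0 2 3 4 5 (fun P => by rw [all]; tauto)
    rfl rfl rfl rfl rfl rfl
  have k3 := key ![5,3,4,1,2,0] 0 1 3 2 4 5 (fun P => by rw [all]; tauto)
    rfl rfl rfl rfl rfl rfl
  have k4 := key ![4,2,1,5,0,3] 0 1 2 3 5 4 (fun P => by rw [all]; tauto)
    rfl rfl rfl rfl rfl rfl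
  have k5 := key ![3,5,4,0,2,1] 1 0 3 2 4 5 (fun P => by rw [all]; tauto)
    rfl rfl rfl rfl rfl rfl
  have k6 := key ![2,4,0,5,1,3] 1 0 2 3 5 4 (fun P => by rw [all]; tauto)
    rfl rfl rfl rfl rfl rfl
  have k7 := key ![4,3,5,1,0,2] 0 1 3 2 5 4 (fun P => by rw [all]; tauto)
    rfl rfl rfl rfl rfl rfl
  have k8 := key ![3,4,5,0,1,2] 1 0 3 2 5 4 (fun P => by rw [all]; tauto)
    rfl rfl rfl rfl rfl rfl
  simp only [ev, Dcl, List.map_cons, List.map_nil, List.sum_cons, List.sum_nil, mt,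
    k1, k2, k3, k4, k5, k6, k7, k8]
  ring

theorem cl_nz {m : ℕ} (g : Fin 6 → Fin m) (h : ev Dcl g ≠ 0) :
    ∃ i j k : Fin m, i ≠ j ∧ j ≠ k ∧ k ≠ i ∧ s(g 0, g 1) = s(i, j) ∧ s(g 2, g 3) = s(j, k) ∧
      s(g 4, g 5) = s(k, i) := by
  rw [ev_Dcl] at h
  have n1 : g 0 ≠ g 1 := by
    intro q
    apply h
    rw [q]; ring
  have n2 : g 2 ≠ g 3 := by
    intro q
    apply h
    rw [q]; ring
  have n3 : g 4 ≠ g 5 := by
    intro q
    apply h
    rw [q]; ring
  -- the general conclusion from one valid hexagon matching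
  have fin : ∀ a a' c c' e e' : Fin m, hx a a' c c' e e' → a ≠ a' → c ≠ c' → e ≠ e' →
      s(g 0, g 1) = s(a, a') → s(g 2, g 3) = s(c, c') → s(g 4, g 5) = s(e, e') →
      ∃ i j k : Fin m, i ≠ j ∧ j ≠ k ∧ k ≠ i ∧ s(g 0, g 1) = s(i, j) ∧ s(g 2, g 3) = s(j, k) ∧
      s(g 4, g 5) = s(k, i) := by
    rintro a a' c c' e e' ⟨h1, h2, h3⟩ q1 q2 q3 r1 r2 r3
    subst h1 h2 h3
    exact ⟨_, _, _, q1, q2, q3, r1, r2, r3⟩
  by_contra hcon
  have f : ∀ a a' c c' e e' : Fin m, a ≠ a' → c ≠ c' → e ≠ e' →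
      s(g 0, g 1) = s(a, a') → s(g 2, g 3) = s(c, c') → s(g 4, g 5) = s(e, e') →
      ¬ hx a a' c c' e e' := fun a a' c c' e e' q1 q2 q3 r1 r2 r3 hh =>
    hcon (fin a a' c c' e e' hh q1 q2 q3 r1 r2 r3)
  apply h
  have sw : ∀ a b : Fin m, s(a, b) = s(b, a) := fun a b => Sym2.eq_swap
  rw [if_neg (f _ _ _ _ _ _ n1 n2 n3 rfl rfl rfl),
    if_neg (f _ _ _ _ _ _ n1.symm n2 n3 (sw _ _) rfl rfl),
    if_neg (f _ _ _ _ _ _ n1 n2.symm n3 rfl (sw _ _) rfl),
    if_neg (f _ _ _ _ _ _ n1 n2 n3.symm rfl rfl (sw _ _)),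
    if_neg (f _ _ _ _ _ _ n1.symm n2.symm n3 (sw _ _) (sw _ _) rfl),
    if_neg (f _ _ _ _ _ _ n1.symm n2 n3.symm (sw _ _) rfl (sw _ _)),
    if_neg (f _ _ _ _ _ _ n1 n2.symm n3.symm rfl (sw _ _) (sw _ _)),
    if_neg (f _ _ _ _ _ _ n1.symm n2.symm n3.symm (sw _ _) (sw _ _) (sw _ _))]
  ring

section

set_option linter.unusedSectionVars false

variable {Ch Cl P : Type*} [Fintype Ch] [DecidableEq Ch] [Fintype Cl] [DecidableEq Cl]

/-- number of ends of a local vertex -/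
def nn : Ch ⊕ Cl → ℕ := Sum.elim (fun _ => 4) (fun _ => 6)

/-- the foot of an end -/
def foot (f : (Ch × Fin 2) ⊕ (Cl × Fin 3) ≃ P) : (Σ v : Ch ⊕ Cl, Fin (nn v)) → P × Bool
  | ⟨Sum.inl c, i⟩ =>
    (f (Sum.inl (c, (![0, 0, 1, 1] : Fin 4 → Fin 2) i)), t4 i)
  | ⟨Sum.inr c, i⟩ =>
    (f (Sum.inr (c, (![0, 0, 1, 1, 2, 2] : Fin 6 → Fin 3) i)), t6 i)

/-- the ends of a foot -/
def unf (y : (Ch × Fin 2) ⊕ (Cl × Fin 3)) (b : Bool) : (Σ v : Ch ⊕ Cl, Fin (nn v)) :=
  match y with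
  | Sum.inl (c, j) => ⟨Sum.inl c, (if b then (![1, 3] : Fin 2 → Fin 4) j else
      (![0, 2] : Fin 2 → Fin 4) j : Fin 4)⟩
  | Sum.inr (c, j) => ⟨Sum.inr c, (if b then (![1, 3, 5] : Fin 3 → Fin 6) j else
      (![0, 2, 4] : Fin 3 → Fin 6) j : Fin 6)⟩

/-- the ends of a foot -/
def unfoot (f : (Ch × Fin 2) ⊕ (Cl × Fin 3) ≃ P) : P × Bool → (Σ v : Ch ⊕ Cl, Fin (nn v)) :=
  fun x => unf (f.symm x.1) x.2

theorem unfoot_foot (f : (Ch × Fin 2) ⊕ (Cl × Fin 3) ≃ P) (x : Σ v : Ch ⊕ Cl, Fin (nn v)) :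
    unfoot f (foot f x) = x := by
  obtain ⟨v, i⟩ := x
  rcases v with c | c
  · change Fin 4 at i
    simp only [foot, unfoot, Equiv.symm_apply_apply]
    fin_cases i <;> rfl
  · change Fin 6 at i
    simp only [foot, unfoot, Equiv.symm_apply_apply]
    fin_cases i <;> rfl

theorem foot_unfoot (f : (Ch × Fin 2) ⊕ (Cl × Fin 3) ≃ P) (x : P × Bool) :
    foot f (unfoot f x) = x := by
  obtain ⟨x, b⟩ := x
  obtain ⟨y, rfl⟩ := f.surjective x
  rcases y with ⟨c, j⟩ | ⟨c, j⟩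
  · simp only [unfoot, Equiv.symm_apply_apply]
    cases b <;> fin_cases j <;> rfl
  · simp only [unfoot, Equiv.symm_apply_apply]
    cases b <;> fin_cases j <;> rfl

/-- flip along an arc -/
def flip (next : Equiv.Perm P) : P × Bool → P × Bool
  | (x, true) => (next x, false)
  | (x, false) => (next.symm x, true)

theorem flip_flip (next : Equiv.Perm P) (x : P × Bool) : flip next (flip next x) = x := by
  obtain ⟨x, b⟩ := x
  cases b <;> simp [flip]

theorem flip_snd (next : Equiv.Perm P) (x : P × Bool) : (flip next x).2 = !x.2 := by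
  obtain ⟨x, b⟩ := x
  cases b <;> simp [flip]

/-- the involution on ends -/
def alp (f : (Ch × Fin 2) ⊕ (Cl × Fin 3) ≃ P) (next : Equiv.Perm P) :
    (Σ v : Ch ⊕ Cl, Fin (nn v)) → (Σ v : Ch ⊕ Cl, Fin (nn v)) :=
  fun x => unfoot f (flip next (foot f x))

/-- orientation -/
def tt : ∀ v : Ch ⊕ Cl, Fin (nn v) → Bool
  | Sum.inl _ => t4
  | Sum.inr _ => t6

theorem foot_snd (f : (Ch × Fin 2) ⊕ (Cl × Fin 3) ≃ P) (x : Σ v : Ch ⊕ Cl, Fin (nn v)) :
    (foot f x).2 = tt x.1 x.2 := by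
  obtain ⟨v, i⟩ := x
  rcases v with c | c <;> rfl

theorem alp_alp (f : (Ch × Fin 2) ⊕ (Cl × Fin 3) ≃ P) (next : Equiv.Perm P)
    (x : Σ v : Ch ⊕ Cl, Fin (nn v)) : alp f next (alp f next x) = x := by
  unfold alp
  rw [foot_unfoot, flip_flip, unfoot_foot]

theorem alp_t (f : (Ch × Fin 2) ⊕ (Cl × Fin 3) ≃ P) (next : Equiv.Perm P)
    (x : Σ v : Ch ⊕ Cl, Fin (nn v)) :
    tt (alp f next x).1 (alp f next x).2 = !(tt x.1 x.2) := by
  rw [← foot_snd f, ← foot_snd f]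
  unfold alp
  rw [foot_unfoot, flip_snd]

theorem alp_ne (f : (Ch × Fin 2) ⊕ (Cl × Fin 3) ≃ P) (next : Equiv.Perm P)
    (x : Σ v : Ch ⊕ Cl, Fin (nn v)) : alp f next x ≠ x := by
  intro h
  have := alp_t f next x
  rw [h] at this
  simp at this

/-- combination data -/
def Da (D : List (ℤ × (Fin 4 → Fin 4))) (D' : List (ℤ × (Fin 6 → Fin 6))) (m : ℕ) :
    ∀ v : Ch ⊕ Cl, (Fin (nn v) → Fin m) → ℤ
  | Sum.inl _ => (ev D : (Fin 4 → Fin m) → ℤ)
  | Sum.inr _ => (ev D' : (Fin 6 → Fin m) → ℤ)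

/-- the swap at each foot -/
def io : ∀ v : Ch ⊕ Cl, Fin (nn v) → Fin (nn v)
  | Sum.inl _ => (![1,0,3,2] : Fin 4 → Fin 4)
  | Sum.inr _ => (![1,0,3,2,5,4] : Fin 6 → Fin 6)

theorem io_unfoot (f : (Ch × Fin 2) ⊕ (Cl × Fin 3) ≃ P) (x : P) (b : Bool) :
    (⟨(unfoot f (x, b)).1, io _ (unfoot f (x, b)).2⟩ : Σ v : Ch ⊕ Cl, Fin (nn v)) =
      unfoot f (x, !b) := by
  unfold unfoot
  generalize f.symm (x, b).1 = y
  rcases y with ⟨c, j⟩ | ⟨c, j⟩
  · cases b <;> fin_cases j <;> rfl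
  · cases b <;> fin_cases j <;> rfl

theorem final_count [Nonempty P] (f : (Ch × Fin 2) ⊕ (Cl × Fin 3) ≃ P) (next : Equiv.Perm P)
    (hnext : ∀ x y, next.SameCycle x y) (m : ℕ) :
    Zs (alp f next) m (fun v => mt (io v)) = m := by
  unfold Zs
  have hconst : ∀ l : (Σ v : Ch ⊕ Cl, Fin (nn v)) → Fin m,
      (∀ x, l (alp f next x) = l x) → (∀ v i, l ⟨v, io v i⟩ = l ⟨v, i⟩) →
      ∀ x y, l x = l y := by
    intro l h1 h2
    have q1 : ∀ x, l (unfoot f (next x, false)) = l (unfoot f (x, true)) := by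
      intro x
      have := h1 (unfoot f (x, true))
      unfold alp at this
      rw [foot_unfoot] at this
      exact this
    have q2 : ∀ x b, l (unfoot f (x, !b)) = l (unfoot f (x, b)) := by
      intro x b
      rw [← io_unfoot]
      exact h2 _ _
    have q3 : ∀ x, l (unfoot f (next x, true)) = l (unfoot f (x, true)) := by
      intro x
      rw [← q1 x]
      exact q2 (next x) false
    have q4 : ∀ x y, l (unfoot f (x, true)) = l (unfoot f (y, true)) := by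
      intro x y
      obtain ⟨i, hi⟩ := hnext x y
      have : ∀ n : ℤ, l (unfoot f ((next ^ n) x, true)) = l (unfoot f (x, true)) := by
        intro n
        induction n using Int.induction_on with
        | zero => simp
        | succ n ih =>
          rw [add_comm, zpow_add, zpow_one, Equiv.Perm.mul_apply, q3, ih]
        | pred n ih =>
          rw [← ih, ← q3]
          congr 3
          rw [← Equiv.Perm.mul_apply, ← zpow_one_add]
          congr 2
          ring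
      rw [← hi, this]
    have q5 : ∀ x, ∃ y, l x = l (unfoot f (y, true)) := by
      intro x
      refine ⟨(foot f x).1, ?_⟩
      have e : x = unfoot f ((foot f x).1, (foot f x).2) := (unfoot_foot f x).symm
      conv_lhs => rw [e]
      cases h : (foot f x).2
      · exact (q2 _ false).symm
      · rfl
    intro x y
    obtain ⟨x', hx⟩ := q5 x
    obtain ⟨y', hy⟩ := q5 y
    rw [hx, hy]
    exact q4 _ _
  obtain ⟨p0⟩ := (inferInstance : Nonempty P)
  set h0 := unfoot f (p0, true) with hh0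
  have e1 : ∀ l : (Σ v : Ch ⊕ Cl, Fin (nn v)) → Fin m,
      (∏ v : Ch ⊕ Cl, mt (io v) (fun i => l ⟨v, i⟩)) =
      if (∀ v i, l ⟨v, io v i⟩ = l ⟨v, i⟩) then 1 else 0 := by
    intro l
    by_cases h : ∀ v i, l ⟨v, io v i⟩ = l ⟨v, i⟩
    · rw [if_pos h]
      apply Finset.prod_eq_one
      intro v _
      unfold mt
      rw [if_pos (h v)]
    · rw [if_neg h]
      push Not at h
      obtain ⟨v, i, hv⟩ := h
      apply Finset.prod_eq_zero (i := v) (mem_univ v)
      unfold mt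
      rw [if_neg]
      intro h
      exact hv (h i)
  beta_reduce
  rw [Finset.sum_congr rfl (fun l _ => e1 l)]
  rw [← Finset.sum_filter, Finset.sum_const, Finset.filter_filter]
  have e2 : (univ.filter (fun l : (Σ v : Ch ⊕ Cl, Fin (nn v)) → Fin m =>
      (∀ x, l (alp f next x) = l x) ∧ ∀ v i, l ⟨v, io v i⟩ = l ⟨v, i⟩)) =
      (univ : Finset (Fin m)).image (fun s => fun _ => s) := by
    ext l
    simp only [mem_filter, mem_univ, true_and, mem_image]
    constructor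
    · rintro ⟨h1, h2⟩
      exact ⟨l h0, funext fun x => hconst l h1 h2 _ _⟩
    · rintro ⟨s, rfl⟩
      exact ⟨fun _ => rfl, fun _ _ => rfl⟩
  rw [e2, Finset.card_image_of_injective]
  · simp
  · intro s s' h
    exact congrFun h h0

/-- **The labelling theorem.** -/
theorem exists_labelling [Nonempty P] (f : (Ch × Fin 2) ⊕ (Cl × Fin 3) ≃ P)
    (next : Equiv.Perm P) (hnext : ∀ x y, next.SameCycle x y) :
    ∃ (m : ℕ) (l : P → Fin m),
      (∀ c : Ch, l (next.symm (f (Sum.inl (c, 0)))) ≠ l (f (Sum.inl (c, 0))) ∧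
        s(l (next.symm (f (Sum.inl (c, 0)))), l (f (Sum.inl (c, 0)))) =
        s(l (next.symm (f (Sum.inl (c, 1)))), l (f (Sum.inl (c, 1))))) ∧
      (∀ c : Cl, ∃ i j k : Fin m, i ≠ j ∧ j ≠ k ∧ k ≠ i ∧
        s(l (next.symm (f (Sum.inr (c, 0)))), l (f (Sum.inr (c, 0)))) = s(i, j) ∧
        s(l (next.symm (f (Sum.inr (c, 1)))), l (f (Sum.inr (c, 1)))) = s(j, k) ∧
        s(l (next.symm (f (Sum.inr (c, 2)))), l (f (Sum.inr (c, 2)))) = s(k, i)) := by
  set k := Fintype.card Cl with hk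
  set m : ℕ := 2 ^ (2 * k + 2) - 2 with hm
  have hpow : 4 ≤ 2 ^ (2 * k + 2) := by
    calc 4 = 2 ^ 2 := by norm_num
      _ ≤ 2 ^ (2 * k + 2) := Nat.pow_le_pow_right (by norm_num) (by omega)
  have hm0 : 0 < m := by omega
  have hm2 : (m : ℤ) + 2 = 2 ^ (2 * k + 2) := by
    have : m + 2 = 2 ^ (2 * k + 2) := by omega
    exact_mod_cast this
  -- first phase
  have ph1 : ((2 : ℤ) ^ (2 * k + 2)) ∣ Zs (alp f next) m (Da Dch Dcl m) -
      Zs (alp f next) m (Da Dch1 Dcl1' m) := by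
    apply replace_all (alp f next) (alp_alp f next) (alp_ne f next) tt false (by simp) m hm0
    · rintro (c | c)
      · exact ev_mem m false t4 Dch ismat_ch.1
      · exact ev_mem m false t6 Dcl ismat_cl.1
    · rintro (c | c)
      · exact ev_mem m false t4 Dch1 (fun p hp => ⟨(ismat_ch.2.1 p hp).1, by simp⟩)
      · exact ev_mem m false t6 Dcl1' (fun p hp => ⟨(ismat_cl.2.2.1 p hp).1, by simp⟩)
    · rintro (c | c) π hπ
      · exact local_check t4 π hπ m hm0 _ (by rw [hm2]) Dch Dch1 ismat_ch.1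
          (fun p hp => ⟨(ismat_ch.2.1 p hp).1, by simp⟩)
          (by rw [ch_first π (L4_complete t4 π hπ)]; simp)
      · exact local_check t6 π hπ m hm0 _ (by rw [hm2]) Dcl Dcl1' ismat_cl.1
          (fun p hp => ⟨(ismat_cl.2.2.1 p hp).1, by simp⟩)
          (by rw [cl_first π (L6_complete t6 π hπ)]; simp)
  -- extracting the factor four
  have e4 : Zs (alp f next) m (Da (Ch := Ch) (Cl := Cl) Dch1 Dcl1' m) =
      4 ^ k * Zs (alp f next) m (Da (Ch := Ch) (Cl := Cl) Dch1 Dcl1 m) := by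
    have : (Da (Ch := Ch) (Cl := Cl) Dch1 Dcl1' m) = fun v =>
        (Sum.elim (fun _ => (1 : ℤ)) (fun _ => (4 : ℤ)) v) •
          (Da (Ch := Ch) (Cl := Cl) Dch1 Dcl1 m v) := by
      funext v
      rcases v with c | c
      · simp only [Sum.elim_inl, one_smul]
        rfl
      · simp only [Sum.elim_inr]
        funext g
        change ev Dcl1' g = 4 * ev Dcl1 g
        simp only [ev, Dcl1, Dcl1', List.map_cons, List.map_nil,
          List.sum_cons, List.sum_nil]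
        ring
    rw [this, Zs_scale]
    congr 1
    rw [Fintype.prod_sum_type]
    simp [hk]
  -- second phase
  have h4m : (4 : ℤ) ∣ (m : ℤ) + 2 := by
    rw [hm2]
    exact ⟨2 ^ (2 * k), by ring⟩
  have ph2 : (4 : ℤ) ∣ Zs (alp f next) m (Da Dch1 Dcl1 m) -
      Zs (alp f next) m (Da Dch2 Dcl2 m) := by
    apply replace_all (alp f next) (alp_alp f next) (alp_ne f next) tt true
      (fun _ x => alp_t f next x) m hm0
    · rintro (c | c)
      · exact ev_mem m true t4 Dch1 ismat_ch.2.1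
      · exact ev_mem m true t6 Dcl1 ismat_cl.2.1
    · rintro (c | c)
      · exact ev_mem m true t4 Dch2 ismat_ch.2.2
      · exact ev_mem m true t6 Dcl2 ismat_cl.2.2.2
    · rintro (c | c) π hπ
      · have hπ' : IsM false t4 π := ⟨hπ.1, by simp⟩
        exact local_check t4 π hπ' m hm0 _ h4m Dch1 Dch2
          (fun p hp => ⟨(ismat_ch.2.1 p hp).1, by simp⟩)
          (fun p hp => ⟨(ismat_ch.2.2 p hp).1, by simp⟩)
          (ch_second π (L4_complete t4 π hπ') hπ)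
      · have hπ' : IsM false t6 π := ⟨hπ.1, by simp⟩
        exact local_check t6 π hπ' m hm0 _ h4m Dcl1 Dcl2
          (fun p hp => ⟨(ismat_cl.2.1 p hp).1, by simp⟩)
          (fun p hp => ⟨(ismat_cl.2.2.2 p hp).1, by simp⟩)
          (cl_second π (L6_complete t6 π hπ') hπ)
  -- final value
  have e5 : Zs (alp f next) m (Da (Ch := Ch) (Cl := Cl) Dch2 Dcl2 m) =
      (-1) ^ (Fintype.card Ch) * m := by
    have : (Da (Ch := Ch) (Cl := Cl) Dch2 Dcl2 m) = fun v =>
        (Sum.elim (fun _ => (-1 : ℤ)) (fun _ => (1 : ℤ)) v) •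
          (mt (io v) : (Fin (nn v) → Fin m) → ℤ) := by
      funext v
      rcases v with c | c
      · simp only [Sum.elim_inl]
        funext g
        simp only [Da, ev, Dch2, Pi.smul_apply, smul_eq_mul, List.map_cons, List.map_nil,
          List.sum_cons, List.sum_nil, add_zero]
        rfl
      · simp only [Sum.elim_inr]
        funext g
        simp only [Da, ev, Dcl2, Pi.smul_apply, smul_eq_mul, List.map_cons, List.map_nil,
          List.sum_cons, List.sum_nil, add_zero]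
        rfl
    rw [this, Zs_scale, final_count f next hnext m]
    congr 1
    rw [Fintype.prod_sum_type]
    simp
  -- nonvanishing
  have hnz : Zs (alp f next) m (Da (Ch := Ch) (Cl := Cl) Dch Dcl m) ≠ 0 := by
    intro h0
    rw [h0, zero_sub, dvd_neg, e4] at ph1
    have e6 : (2 : ℤ) ^ (2 * k + 2) = 4 ^ k * 4 := by
      rw [pow_add, pow_mul]; norm_num
    rw [e6] at ph1
    have h4 : (4 : ℤ) ∣ Zs (alp f next) m (Da (Ch := Ch) (Cl := Cl) Dch1 Dcl1 m) :=
      Int.dvd_of_mul_dvd_mul_left (by positivity) ph1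
    have h5 : (4 : ℤ) ∣ (-1) ^ (Fintype.card Ch) * (m : ℤ) := by
      rw [← e5]
      have := dvd_sub h4 ph2
      simpa using this
    have h6 : (4 : ℤ) ∣ (m : ℤ) := by
      rcases neg_one_pow_eq_or ℤ (Fintype.card Ch) with h | h
      · rw [h, one_mul] at h5; exact h5
      · rw [h, neg_one_mul, dvd_neg] at h5; exact h5
    omega
  obtain ⟨l, hl, hl'⟩ := Finset.exists_ne_zero_of_sum_ne_zero hnz
  rw [mem_filter] at hl
  have hl2 := hl.2
  have hl3 : ∀ v, Da (Ch := Ch) (Cl := Cl) Dch Dcl m v (fun i => l ⟨v, i⟩) ≠ 0 := by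
    intro v
    exact (Finset.prod_ne_zero_iff.1 hl') v (mem_univ v)
  have q1 : ∀ x, l (unfoot f (x, false)) = l (unfoot f (next.symm x, true)) := by
    intro x
    have := hl2 (unfoot f (x, false))
    unfold alp at this
    rw [foot_unfoot] at this
    exact this.symm
  refine ⟨m, fun x => l (unfoot f (x, true)), ?_, ?_⟩
  · intro c
    have h := ch_nz _ (hl3 (Sum.inl c))
    simp only [← q1]
    simp only [unfoot, Equiv.symm_apply_apply]
    exact h
  · intro c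
    have h := cl_nz _ (hl3 (Sum.inr c))
    simp only [← q1]
    simp only [unfoot, Equiv.symm_apply_apply]
    exact h

end

end MP5e3363
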