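import Mathlib
import Pool.Agent.Work.MP_5e3363_co.Label

namespace MP5e3363

open Finset

theorem dihedral {D : Type*} (μ ρ : Equiv.Perm D) (hμ : ∀ x, μ (μ x) = x)
    (hμ' : ∀ x, μ x ≠ x) (hρ : ∀ x, ρ (ρ x) = x) (hρ' : ∀ x, ρ x ≠ x) (d : D) (n : ℤ) :
    ((ρ * μ) ^ n) d ≠ μ d := by
  intro h
  have e1 : μ⁻¹ = μ := by
    ext x
    rw [Equiv.Perm.inv_eq_iff_eq, hμ]
  have e2 : ρ⁻¹ = ρ := by
    ext x
    rw [Equiv.Perm.inv_eq_iff_eq, hρ]
  have e3 : ∀ s : ℤ, μ * (ρ * μ) ^ s = (ρ * μ) ^ (-s) * μ := by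
    intro s
    have h1 : μ * (ρ * μ) * μ⁻¹ = (ρ * μ)⁻¹ := by
      rw [mul_inv_rev, e1, e2]
      have : μ * μ = 1 := by ext x; simp [hμ]
      rw [mul_assoc, mul_assoc, this, mul_one]
    have h2 := conj_zpow (a := μ) (b := ρ * μ) (i := s)
    rw [h1, inv_zpow] at h2
    rw [zpow_neg, h2]
    group
  rcases Int.even_or_odd' n with ⟨s, rfl | rfl⟩
  · apply hμ' (((ρ * μ) ^ s) d)
    have : ((ρ * μ) ^ (2 * s)) = (ρ * μ) ^ s * (ρ * μ) ^ s := by
      rw [← zpow_add]; congr 1; ring
    rw [this, Equiv.Perm.mul_apply] at h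
    have h3 : (μ * (ρ * μ) ^ s) d = ((ρ * μ) ^ (-s) * μ) d := by rw [e3]
    rw [Equiv.Perm.mul_apply, Equiv.Perm.mul_apply, ← h, ← Equiv.Perm.mul_apply ((ρ * μ) ^ (-s)),
      ← zpow_add, neg_add_cancel, zpow_zero, Equiv.Perm.one_apply] at h3
    exact h3
  · apply hρ' (μ (((ρ * μ) ^ s) d))
    have : ((ρ * μ) ^ (2 * s + 1)) = (ρ * μ) ^ s * ((ρ * μ) * (ρ * μ) ^ s) := by
      rw [← zpow_one_add, ← zpow_add]; congr 1; ring
    rw [this, Equiv.Perm.mul_apply] at h
    have h3 : (μ * (ρ * μ) ^ s) d = ((ρ * μ) ^ (-s) * μ) d := by rw [e3]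
    rw [Equiv.Perm.mul_apply, Equiv.Perm.mul_apply, ← h, ← Equiv.Perm.mul_apply ((ρ * μ) ^ (-s)),
      ← zpow_add, neg_add_cancel, zpow_zero, Equiv.Perm.one_apply, Equiv.Perm.mul_apply,
      Equiv.Perm.mul_apply] at h3
    exact h3.symm

/-- orientation of a transitive pair of fixed point free involutions -/
theorem orient {D : Type*} (μ ρ : Equiv.Perm D) (hμ : ∀ x, μ (μ x) = x)
    (hμ' : ∀ x, μ x ≠ x) (hρ : ∀ x, ρ (ρ x) = x) (hρ' : ∀ x, ρ x ≠ x)
    (htr : ∀ Q : D → Prop, (∀ x, Q x → Q (μ x)) → (∀ x, Q x → Q (ρ x)) → (∃ x, Q x) → ∀ y, Q y)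
    (d0 : D) :
    ∃ O : D → Prop, O d0 ∧ (∀ x, O (μ x) ↔ ¬ O x) ∧ (∀ x, O (ρ x) ↔ ¬ O x) ∧
      ∀ x y, O x → O y → (ρ * μ).SameCycle x y := by
  set φ := ρ * μ with hφ
  have hA : ∀ x, ¬ φ.SameCycle x (μ x) := by
    rintro x ⟨n, hn⟩
    exact dihedral μ ρ hμ hμ' hρ hρ' x n hn
  have hφμ : ∀ x, φ (μ x) = ρ x := by
    intro x
    rw [hφ, Equiv.Perm.mul_apply, hμ]
  have hS : ∀ x, φ.SameCycle (μ x) (ρ x) := by
    intro x
    refine ⟨1, ?_⟩
    rw [zpow_one, hφμ]
  have hS' : ∀ x, φ.SameCycle (μ (ρ x)) x := by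
    intro x
    refine ⟨1, ?_⟩
    rw [zpow_one, hφμ, hρ]
  have hB : ∀ x, φ.SameCycle d0 x ∨ φ.SameCycle d0 (μ x) := by
    apply htr
    · intro x hx
      rw [hμ]
      exact hx.symm
    · rintro x (hx | hx)
      · right
        exact hx.trans (hS' x).symm
      · left
        exact hx.trans (hS x)
    · exact ⟨d0, Or.inl (Equiv.Perm.SameCycle.refl _ _)⟩
  have hC : ∀ x, φ.SameCycle d0 (μ x) ↔ ¬ φ.SameCycle d0 x := by
    intro x
    constructor
    · intro h1 h2
      exact hA x (h2.symm.trans h1)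
    · intro h
      rcases hB x with h1 | h1
      · exact absurd h1 h
      · exact h1
  refine ⟨fun x => φ.SameCycle d0 x, Equiv.Perm.SameCycle.refl _ _, hC, ?_, ?_⟩
  · intro x
    rw [← hC x]
    constructor
    · intro h
      exact h.trans (hS x).symm
    · intro h
      exact h.trans (hS x)
  · intro x y hx hy
    exact hx.symm.trans hy

section fib

set_option linter.unusedSectionVars false

variable {Ch Cl P : Type*} [Fintype Ch] [DecidableEq Ch] [Fintype Cl] [DecidableEq Cl]
  [Fintype P] [DecidableEq P]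

/-- the labelling theorem in terms of a map with fibres of size two and three -/
theorem exists_labelling_fib [Nonempty P] (g : P → Ch ⊕ Cl)
    (h2 : ∀ c : Ch, (univ.filter (fun p => g p = Sum.inl c)).card = 2)
    (h3 : ∀ c : Cl, (univ.filter (fun p => g p = Sum.inr c)).card = 3)
    (next : Equiv.Perm P) (hnext : ∀ x y, next.SameCycle x y) :
    ∃ (m : ℕ) (l : P → Fin m), (∀ p, l (next.symm p) ≠ l p) ∧
      (∀ p q (c : Ch), g p = Sum.inl c → g q = Sum.inl c →
        s(l (next.symm p), l p) = s(l (next.symm q), l q)) ∧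
      (∀ (c : Cl) (t : Fin m),
        (univ.filter (fun p => g p = Sum.inr c ∧ t ∈ s(l (next.symm p), l p))).card = 0 ∨
        (univ.filter (fun p => g p = Sum.inr c ∧ t ∈ s(l (next.symm p), l p))).card = 2) := by
  have e2 : ∀ c : Ch, Nonempty (Fin 2 ≃ {p // g p = Sum.inl c}) := by
    intro c
    apply Fintype.card_eq.1
    rw [Fintype.card_fin, Fintype.card_subtype, h2]
  have e3 : ∀ c : Cl, Nonempty (Fin 3 ≃ {p // g p = Sum.inr c}) := by
    intro c
    apply Fintype.card_eq.1
    rw [Fintype.card_fin, Fintype.card_subtype, h3]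
  have e2' := fun c => (e2 c).some
  have e3' := fun c => (e3 c).some
  set f0 : (Ch × Fin 2) ⊕ (Cl × Fin 3) → P := fun y =>
    match y with
    | Sum.inl (c, i) => ((e2' c) i).1
    | Sum.inr (c, i) => ((e3' c) i).1 with hf0
  have hf1 : ∀ c i, g (f0 (Sum.inl (c, i))) = Sum.inl c := fun c i => ((e2' c) i).2
  have hf2 : ∀ c i, g (f0 (Sum.inr (c, i))) = Sum.inr c := fun c i => ((e3' c) i).2
  have hbij : Function.Bijective f0 := by
    constructor
    · rintro (⟨c, i⟩ | ⟨c, i⟩) (⟨c', i'⟩ | ⟨c', i'⟩) h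
      · have h' := congrArg g h
        rw [hf1, hf1] at h'
        have hc : c = c' := Sum.inl_injective h'
        subst hc
        have : (e2' c) i = (e2' c) i' := Subtype.ext h
        rw [(e2' c).injective this]
      · have h' := congrArg g h
        rw [hf1, hf2] at h'
        exact absurd h' (by simp)
      · have h' := congrArg g h
        rw [hf1, hf2] at h'
        exact absurd h' (by simp)
      · have h' := congrArg g h
        rw [hf2, hf2] at h'
        have hc : c = c' := Sum.inr_injective h'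
        subst hc
        have : (e3' c) i = (e3' c) i' := Subtype.ext h
        rw [(e3' c).injective this]
    · intro p
      rcases hgp : g p with c | c
      · refine ⟨Sum.inl (c, (e2' c).symm ⟨p, hgp⟩), ?_⟩
        simp [hf0]
      · refine ⟨Sum.inr (c, (e3' c).symm ⟨p, hgp⟩), ?_⟩
        simp [hf0]
  set f : (Ch × Fin 2) ⊕ (Cl × Fin 3) ≃ P := Equiv.ofBijective f0 hbij with hf
  have hff : ∀ y, f y = f0 y := fun y => rfl
  obtain ⟨m, l, hl1, hl2⟩ := exists_labelling f next hnext
  have ne_of : ∀ {a b i j : Fin m}, s(a, b) = s(i, j) → i ≠ j → a ≠ b := by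
    intro a b i j h hij hab
    subst hab
    rw [Sym2.eq_iff] at h
    rcases h with ⟨h1, h2⟩ | ⟨h1, h2⟩
    · exact hij (h1.symm.trans h2)
    · exact hij (h2.symm.trans h1)
  refine ⟨m, l, ?_, ?_, ?_⟩
  · intro p
    obtain ⟨y, rfl⟩ := f.surjective p
    rcases y with ⟨c, i⟩ | ⟨c, i⟩
    · obtain ⟨h1, h2⟩ := hl1 c
      fin_cases i
      · exact h1
      · exact ne_of h2.symm h1
    · obtain ⟨a, b, d, hab, hbd, hda, q1, q2, q3⟩ := hl2 c
      fin_cases i
      · exact ne_of q1 hab
      · exact ne_of q2 hbd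
      · exact ne_of q3 hda
  · intro p q c hp hq
    obtain ⟨h1, h2⟩ := hl1 c
    have key : ∀ p, g p = Sum.inl c → s(l (next.symm p), l p) =
        s(l (next.symm (f (Sum.inl (c, 0)))), l (f (Sum.inl (c, 0)))) := by
      intro p hp
      obtain ⟨y, rfl⟩ := f.surjective p
      rcases y with ⟨c', i⟩ | ⟨c', i⟩
      · rw [hff, hf1] at hp
        have hc : c' = c := Sum.inl_injective hp
        subst hc
        fin_cases i
        · rfl
        · exact h2.symm
      · rw [hff, hf2] at hp
        exact absurd hp (by simp)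
    rw [key p hp, key q hq]
  · intro c t
    obtain ⟨a, b, d, hab, hbd, hda, q1, q2, q3⟩ := hl2 c
    have hcard : (univ.filter (fun p => g p = Sum.inr c ∧ t ∈ s(l (next.symm p), l p))).card =
        (univ.filter (fun i : Fin 3 =>
          t ∈ s(l (next.symm (f (Sum.inr (c, i)))), l (f (Sum.inr (c, i)))))).card := by
      symm
      apply Finset.card_bij (fun i _ => f (Sum.inr (c, i)))
      · intro i hi
        simp only [mem_filter, mem_univ, true_and] at hi ⊢
        exact ⟨hf2 c i, hi⟩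
      · intro i _ j _ h
        have := f.injective h
        simpa using this
      · intro p hp
        simp only [mem_filter, mem_univ, true_and] at hp
        obtain ⟨y, rfl⟩ := f.surjective p
        rcases y with ⟨c', i⟩ | ⟨c', i⟩
        · rw [hff, hf1] at hp
          exact absurd hp.1 (by simp)
        · rw [hff, hf2] at hp
          have hc : c' = c := Sum.inr_injective hp.1
          subst hc
          refine ⟨i, ?_, rfl⟩
          simp only [mem_filter, mem_univ, true_and]
          exact hp.2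
    rw [hcard]
    have h3' : (univ.filter (fun i : Fin 3 =>
          t ∈ s(l (next.symm (f (Sum.inr (c, i)))), l (f (Sum.inr (c, i)))))).card =
        (if t ∈ s(a, b) then 1 else 0) + (if t ∈ s(b, d) then 1 else 0) +
        (if t ∈ s(d, a) then 1 else 0) := by
      rw [Finset.card_filter, Fin.sum_univ_three, q1, q2, q3]
    rw [h3']
    simp only [Sym2.mem_iff]
    by_cases ta : t = a
    · subst ta
      right
      simp [hab, hda.symm]
    · by_cases tb : t = b
      · subst tb
        right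
        simp [ta, hbd]
      · by_cases td : t = d
        · subst td
          right
          simp [ta, tb]
        · left
          simp [ta, tb, td]

end fib

end MP5e3363
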